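import Pool.Agent.W823.QT.Stm

/-! Project QT (helper823), MP_26aa9e_pr: moments of the quenched weights in continuous time. -/

set_option autoImplicit false

namespace Pool.Agent.W494.QT

open MeasureTheory ProbabilityTheory Filter Topology Pool.Agent.W845.Traps Pool.Agent.W823.QT
open scoped ENNReal NNReal

universe u v

theorem En_le_one (x : ℝ≥0∞) : En x ≤ 1 := by
  unfold En
  rw [← EReal.exp_zero]
  apply EReal.exp_monotone
  rw [EReal.neg_le, neg_zero]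
  exact EReal.coe_ennreal_nonneg x

theorem En_coe (θ : ℝ≥0) : En (θ : ℝ≥0∞) = ENNReal.ofReal (Real.exp (-(θ : ℝ))) := by
  unfold En
  rw [EReal.coe_nnreal_eq_coe_real, ← EReal.coe_neg, EReal.exp_coe]

theorem one_sub_En (θ : ℝ≥0) : 1 - En (θ : ℝ≥0∞) ≤ (θ : ℝ≥0∞) := by
  rw [tsub_le_iff_right, En_coe]
  have h1 : (θ : ℝ≥0∞) = ENNReal.ofReal (θ : ℝ) := by simp
  rw [h1, ← ENNReal.ofReal_add θ.coe_nonneg (Real.exp_pos _).le]
  rw [← ENNReal.ofReal_one]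
  apply ENNReal.ofReal_le_ofReal
  have := Real.one_sub_le_exp_neg (θ : ℝ)
  linarith

theorem meas {d n : ℕ} (f : (ℕ → Fin d → ℤ) → ℝ≥0∞)
    (hf : ∀ a b : ℕ → Fin d → ℤ, (∀ i < n, a i = b i) → f a = f b) : Measurable f := by
  let g : (Fin n → Fin d → ℤ) → ℝ≥0∞ := fun b => f (fun i => if h : i < n then b ⟨i, h⟩ else 0)
  have h1 : f = g ∘ (fun a (i : Fin n) => a i) := by
    funext a
    show f a = f (fun i => if h : i < n then a i else 0)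
    apply hf
    intro i hi
    simp [hi]
  rw [h1]
  refine Measurable.comp (measurable_of_countable g) ?_
  exact measurable_pi_lambda _ fun i => measurable_pi_apply _

theorem pos_congr {d n : ℕ} {a b : ℕ → Fin d → ℤ} (h : ∀ i < n, a i = b i) {k : ℕ} (hk : k ≤ n) :
    pos a k = pos b k := by
  unfold pos
  exact Finset.sum_congr rfl fun i hi => h i (lt_of_lt_of_le (Finset.mem_range.1 hi) hk)

theorem Cn_congr {d n : ℕ} (e : ℝ≥0∞) (r : Measure (Fin d → ℤ)) {x x' : ℕ → Fin d → ℤ}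
    (h : ∀ i ≤ n, x i = x' i) : Cn e r n x = Cn e r n x' := by
  unfold Cn
  refine tsum_congr fun y => ?_
  congr 1
  refine lintegral_congr fun w => ?_
  refine Finset.prod_congr rfl fun i hi => ?_
  rw [h i (Finset.mem_Icc.1 hi).2]

/-- the kernel bound -/
noncomputable def gg (C : ℝ) (h : ℝ≥0) (k : ℕ) : ℝ≥0∞ :=
  ENNReal.ofReal (C * (1 + (k : ℝ) * h) ^ (-(5 / 2) : ℝ))

theorem gg_anti (C : ℝ) (hC : 0 < C) (h : ℝ≥0) : Antitone (gg C h) := by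
  intro i j hij
  unfold gg
  apply ENNReal.ofReal_le_ofReal
  refine mul_le_mul_of_nonneg_left ?_ hC.le
  have hi : (i : ℝ) ≤ j := by exact_mod_cast hij
  apply Real.rpow_le_rpow_of_nonpos
  · have := h.coe_nonneg
    positivity
  · have := mul_le_mul_of_nonneg_right hi h.coe_nonneg
    linarith
  · norm_num

theorem small (h6 : NUM_T) (C : ℝ) (hC : 0 < C) (ν γ h : ℝ≥0) (hh : 0 < h) (hh1 : h ≤ 1)
    (hγ : (ν : ℝ) * γ ^ 2 * C * 4 ≤ 1 / 32) :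
    (ν : ℝ≥0∞) * (1 - En ((γ * h : ℝ≥0) : ℝ≥0∞)) ^ 2 * ∑' n : ℕ, ((n : ℝ≥0∞) + 1) * gg C h n ≤
      1 / 32 := by
  have hh' : (0 : ℝ) < h := hh
  have hnum := h6 h hh' (by exact_mod_cast hh1)
  calc (ν : ℝ≥0∞) * (1 - En ((γ * h : ℝ≥0) : ℝ≥0∞)) ^ 2 *
        ∑' n : ℕ, ((n : ℝ≥0∞) + 1) * gg C h n ≤
      (ν : ℝ≥0∞) * ((γ * h : ℝ≥0) : ℝ≥0∞) ^ 2 * ∑' n : ℕ, ((n : ℝ≥0∞) + 1) * gg C h n := by
        gcongr
        exact one_sub_En _
    _ = ENNReal.ofReal (ν * γ ^ 2 * C) * ∑' n : ℕ, ((n : ℝ≥0∞) + 1) *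
          ENNReal.ofReal ((h : ℝ) ^ 2 * (1 + n * (h : ℝ)) ^ (-(5 / 2) : ℝ)) := by
        rw [← ENNReal.tsum_mul_left, ← ENNReal.tsum_mul_left]
        refine tsum_congr fun n => ?_
        have e1 : (ν : ℝ≥0∞) * ((γ * h : ℝ≥0) : ℝ≥0∞) ^ 2 =
            ENNReal.ofReal (ν * (γ * h) ^ 2) := by
          rw [ENNReal.ofReal_mul ν.coe_nonneg, ENNReal.ofReal_pow (by positivity)]
          congr 1
          · simp
          · congr 1
            rw [← NNReal.coe_mul, ENNReal.ofReal_coe_nnreal]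
        have e2 : gg C h n = ENNReal.ofReal (C * (1 + (n : ℝ) * h) ^ (-(5 / 2) : ℝ)) := rfl
        rw [e1, e2]
        calc ENNReal.ofReal (ν * (γ * h) ^ 2) * (((n : ℝ≥0∞) + 1) *
              ENNReal.ofReal (C * (1 + (n : ℝ) * h) ^ (-(5 / 2) : ℝ))) =
            ((n : ℝ≥0∞) + 1) * (ENNReal.ofReal (ν * (γ * h) ^ 2) *
              ENNReal.ofReal (C * (1 + (n : ℝ) * h) ^ (-(5 / 2) : ℝ))) := by ring
          _ = ((n : ℝ≥0∞) + 1) * (ENNReal.ofReal (ν * γ ^ 2 * C) *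
              ENNReal.ofReal ((h : ℝ) ^ 2 * (1 + n * (h : ℝ)) ^ (-(5 / 2) : ℝ))) := by
              rw [← ENNReal.ofReal_mul (by positivity), ← ENNReal.ofReal_mul (by positivity)]
              congr 2
              ring
          _ = _ := by ring
    _ ≤ ENNReal.ofReal (ν * γ ^ 2 * C) * 4 := by gcongr
    _ = ENNReal.ofReal (ν * γ ^ 2 * C * 4) := by
        rw [ENNReal.ofReal_mul (by positivity : (0 : ℝ) ≤ ν * γ ^ 2 * C), ENNReal.ofReal_ofNat]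
    _ ≤ ENNReal.ofReal (1 / 32) := ENNReal.ofReal_le_ofReal hγ
    _ = 1 / 32 := by
        rw [ENNReal.ofReal_div_of_pos (by norm_num)]
        simp

/-- the set outside the ball -/
def Bc (d : ℕ) (M : ℝ) (t : ℝ≥0) : Set (Fin d → ℤ) :=
  {x | √(∑ i, ((x i : ℤ) : ℝ) ^ 2) ≤ M * √(t : ℝ)}ᶜ

theorem Bc_le {d : ℕ} (M : ℝ) (hM : 0 < M) (t : ℝ≥0) (ht : 0 < t) (x : Fin d → ℤ) :
    (Bc d M t).indicator (fun _ => (1 : ℝ≥0∞)) x ≤
      ENNReal.ofReal (1 / (M ^ 2 * t)) * ∑ i, Pool.Agent.W823.QT.sq (x i) := by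
  have ht' : (0 : ℝ) < t := ht
  by_cases hx : x ∈ Bc d M t
  · rw [Set.indicator_of_mem hx]
    have h1 : M * √(t : ℝ) < √(∑ i, ((x i : ℤ) : ℝ) ^ 2) := by
      rw [Bc, Set.mem_compl_iff, Set.mem_setOf_eq, not_le] at hx
      exact hx
    have h2 : M ^ 2 * t ≤ ∑ i, ((x i : ℤ) : ℝ) ^ 2 := by
      have h3 : (0 : ℝ) ≤ M * √(t : ℝ) := by positivity
      have h4 := pow_le_pow_left₀ h3 h1.le 2
      rw [mul_pow, Real.sq_sqrt ht'.le, Real.sq_sqrt (by positivity)] at h4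
      exact h4
    unfold Pool.Agent.W823.QT.sq
    rw [← ENNReal.ofReal_sum_of_nonneg (fun i _ => sq_nonneg _),
      ← ENNReal.ofReal_mul (by positivity), ← ENNReal.ofReal_one]
    apply ENNReal.ofReal_le_ofReal
    rw [one_div, inv_mul_eq_div, one_le_div (by positivity)]
    exact h2
  · rw [Set.indicator_of_notMem hx]
    exact zero_le

theorem grid (h1 : CORE_T) (h2 : GRD_T.{u, v}) (h5 : STEP_T) (h6 : NUM_T) {d : ℕ} (hd : 5 ≤ d)
    (κ ρ ν : ℝ≥0) (C : ℝ) (hC : 0 < C)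
    (hk : ∀ (h : ℝ≥0) (k m : ℕ) (x : Fin d → ℤ),
      ∫⁻ a, pk (stepLaw d ρ h) k (x + pos a m) ∂(iid (stepLaw d κ h)) ≤
        ENNReal.ofReal (C * (1 + ((k + m : ℕ) : ℝ) * h) ^ (-(5 / 2) : ℝ)))
    (γ : ℝ≥0) (hγ : (ν : ℝ) * γ ^ 2 * C * 4 ≤ 1 / 32)
    (Ω : Type u) [MeasurableSpace Ω] (P : Measure Ω)
    [IsProbabilityMeasure P] (Ω' : Type v) [MeasurableSpace Ω'] (P' : Measure Ω')
    [IsProbabilityMeasure P'] (X : ℝ≥0 → Ω' → Fin d → ℤ)
    (N : (Fin d → ℤ) → Ω → ℕ) (Y : (Fin d → ℤ) → ℕ → ℝ≥0 → Ω → Fin d → ℤ)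
    (hX : IsWalk P' κ X) (hT : TrapSystem P ρ ν N Y) (t : ℝ≥0) (ht : 1 ≤ t) (n : ℕ)
    (hn1 : 1 ≤ n) (hn : t ≤ n) :
    ENNReal.ofReal (Real.exp (-(ν * γ * t))) ≤
      ∫⁻ ω, qg P' (γ * (t / n)) X N Y (t / n) n (fun _ => 1) ω ∂P ∧
    ∫⁻ ω, (qg P' (γ * (t / n)) X N Y (t / n) n (fun _ => 1) ω) ^ 2 ∂P ≤
      4 * (∫⁻ ω, qg P' (γ * (t / n)) X N Y (t / n) n (fun _ => 1) ω ∂P) ^ 2 ∧
    ∀ M : ℝ, 0 < M →
      ∫⁻ ω, qg P' (γ * (t / n)) X N Y (t / n) n ((Bc d M t).indicator fun _ => 1) ω ∂P ≤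
      ENNReal.ofReal (6 * κ / M ^ 2) *
        ∫⁻ ω, qg P' (γ * (t / n)) X N Y (t / n) n (fun _ => 1) ω ∂P := by
  set h : ℝ≥0 := t / n with hh
  have hn0 : (0 : ℝ≥0) < n := by exact_mod_cast hn1
  have ht0 : 0 < t := lt_of_lt_of_le one_pos ht
  have hh0 : 0 < h := div_pos ht0 hn0
  have hh1 : h ≤ 1 := by
    rw [hh, div_le_one hn0]
    exact hn
  obtain ⟨hq1, hq2, hq3, _⟩ := h5 d κ h
  obtain ⟨hr1, hr2, _, _⟩ := h5 d ρ h
  have hcore := h1 d (stepLaw d κ h) (stepLaw d ρ h) hq2 hr2 (En ((γ * h : ℝ≥0) : ℝ≥0∞))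
    (En_le_one _) ν ENNReal.coe_ne_top (gg C h) (gg_anti C hC h) (hk h)
    (small h6 C hC ν γ h hh0 hh1 hγ) n hn1
  obtain ⟨hc1, hc2, hc3⟩ := hcore
  have hgrd := h2 d Ω P Ω' P' κ ρ ν X N Y hX hT (γ * h) h n
  have hz : ∫⁻ ω, qg P' (γ * h) X N Y h n (fun _ => 1) ω ∂P =
      ∫⁻ a, En (ν * Cn (En ((γ * h : ℝ≥0) : ℝ≥0∞)) (stepLaw d ρ h) n (pos a))
        ∂(iid (stepLaw d κ h)) := by
    rw [(hgrd (fun _ => 1)).2.1]
    simp only [one_mul]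
  rw [(hgrd (fun _ => 1)).2.2, hz]
  refine ⟨le_trans ?_ hc1, hc2, ?_⟩
  · apply ENNReal.ofReal_le_ofReal
    rw [Real.exp_le_exp, neg_le_neg_iff]
    have e1 : ((ν : ℝ≥0∞) * (1 - En ((γ * h : ℝ≥0) : ℝ≥0∞))).toReal ≤ ν * (γ * h) := by
      have e2 : (ν : ℝ≥0∞) * (1 - En ((γ * h : ℝ≥0) : ℝ≥0∞)) ≤ ((ν * (γ * h) : ℝ≥0) : ℝ≥0∞) := by
        rw [ENNReal.coe_mul ν]
        gcongr
        exact one_sub_En _
      have e3 := ENNReal.toReal_mono ENNReal.coe_ne_top e2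
      rw [ENNReal.coe_toReal] at e3
      push_cast at e3
      exact e3
    have e4 : (n : ℝ) * h = t := by
      have : (n : ℝ≥0) * h = t := by
        rw [hh]
        field_simp
      exact_mod_cast this
    calc (n : ℝ) * ((ν : ℝ≥0∞) * (1 - En ((γ * h : ℝ≥0) : ℝ≥0∞))).toReal ≤
          n * (ν * (γ * h)) := by gcongr
      _ = ν * γ * (n * h) := by ring
      _ = ν * γ * t := by rw [e4]
  · intro M hM
    rw [(hgrd _).2.1]
    set F : (ℕ → Fin d → ℤ) → ℝ≥0∞ := fun a =>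
      En (ν * Cn (En ((γ * h : ℝ≥0) : ℝ≥0∞)) (stepLaw d ρ h) n (pos a)) with hF
    have hFc : ∀ a b : ℕ → Fin d → ℤ, (∀ i < n, a i = b i) → F a = F b := by
      intro a b hab
      simp only [hF]
      rw [Cn_congr _ _ (fun i hi => pos_congr hab hi)]
    have hmeas : ∀ i : Fin d, Measurable (fun a : ℕ → Fin d → ℤ =>
        F a * Pool.Agent.W823.QT.sq (pos a n i)) := by
      intro i
      refine meas (n := n) _ fun a b hab => ?_
      rw [hFc a b hab, pos_congr hab le_rfl]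
    calc ∫⁻ a, (Bc d M t).indicator (fun _ => 1) (pos a n) * F a ∂(iid (stepLaw d κ h)) ≤
        ∫⁻ a, ENNReal.ofReal (1 / (M ^ 2 * t)) * ∑ i, F a * Pool.Agent.W823.QT.sq (pos a n i)
          ∂(iid (stepLaw d κ h)) := by
          refine lintegral_mono fun a => ?_
          calc (Bc d M t).indicator (fun _ => 1) (pos a n) * F a ≤
              (ENNReal.ofReal (1 / (M ^ 2 * t)) * ∑ i, Pool.Agent.W823.QT.sq (pos a n i)) * F a := by
                gcongr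
                exact Bc_le M hM t ht0 _
            _ = _ := by
                rw [mul_assoc, Finset.sum_mul]
                congr 1
                exact Finset.sum_congr rfl fun i _ => mul_comm _ _
      _ = ENNReal.ofReal (1 / (M ^ 2 * t)) * ∑ i, ∫⁻ a, F a * Pool.Agent.W823.QT.sq (pos a n i)
          ∂(iid (stepLaw d κ h)) := by
          rw [lintegral_const_mul _ (Finset.measurable_sum _ fun i _ => hmeas i),
            lintegral_finset_sum _ fun i _ => hmeas i]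
      _ ≤ ENNReal.ofReal (1 / (M ^ 2 * t)) * ∑ _i : Fin d, 6 * n *
          ENNReal.ofReal ((κ : ℝ) * h / d) * ∫⁻ a, F a ∂(iid (stepLaw d κ h)) := by
          gcongr with i _
          have := hc3 i
          rw [hq3 (by omega) i] at this
          exact this
      _ = ENNReal.ofReal (6 * κ / M ^ 2) * ∫⁻ a, F a ∂(iid (stepLaw d κ h)) := by
          rw [Finset.sum_const, Finset.card_univ, Fintype.card_fin, nsmul_eq_mul]
          have e1 : (6 : ℝ≥0∞) = ENNReal.ofReal 6 := by simp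
          have e2 : (n : ℝ≥0∞) = ENNReal.ofReal n := by simp
          have e3 : (d : ℝ≥0∞) = ENNReal.ofReal d := by simp
          have ht' : (0 : ℝ) < t := ht0
          have hd' : (0 : ℝ) < d := by
            have : 0 < d := by omega
            exact_mod_cast this
          have hn' : (0 : ℝ) < n := by exact_mod_cast hn1
          have e4 : (h : ℝ) = t / n := by rw [hh]; push_cast; rfl
          rw [e1, e2, e3, ← mul_assoc, ← mul_assoc]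
          congr 1
          rw [← ENNReal.ofReal_mul (by positivity), ← ENNReal.ofReal_mul (by positivity),
            ← ENNReal.ofReal_mul (by positivity), ← ENNReal.ofReal_mul (by positivity)]
          congr 1
          rw [e4]
          field_simp

theorem close {Ω : Type u} [MeasurableSpace Ω] (P : Measure Ω) (f g : Ω → ℝ≥0∞)
    (hg : AEMeasurable g P) :
    ∫⁻ ω, f ω ∂P ≤ ∫⁻ ω, g ω ∂P + ∫⁻ ω, ((f ω - g ω) + (g ω - f ω)) ∂P := by
  rw [← lintegral_add_left' hg]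
  refine lintegral_mono fun ω => ?_
  exact le_add_tsub.trans (add_le_add le_rfl le_self_add)

theorem qw_le_one {d : ℕ} {Ω : Type u} {Ω' : Type v} [MeasurableSpace Ω']
    (γ : ℝ≥0) (P' : Measure Ω') [IsProbabilityMeasure P'] (X : ℝ≥0 → Ω' → Fin d → ℤ)
    (N : (Fin d → ℤ) → Ω → ℕ) (Y : (Fin d → ℤ) → ℕ → ℝ≥0 → Ω → Fin d → ℤ) (t : ℝ≥0)
    (E : Set Ω') (ω : Ω) : quenchedWeight γ P' X N Y t E ω ≤ 1 := by
  unfold quenchedWeight
  calc ∫⁻ ω' in E, EReal.exp (-((γ * pathExposure N Y t (fun s => X s ω') ω : ℝ≥0∞) : EReal))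
        ∂P' ≤ ∫⁻ _ω' in E, 1 ∂P' := lintegral_mono fun ω' => En_le_one _
    _ = P' E := by simp
    _ ≤ 1 := prob_le_one

theorem qg_le_one {d : ℕ} {Ω : Type u} {Ω' : Type v} [MeasurableSpace Ω'] (P' : Measure Ω')
    [IsProbabilityMeasure P'] (θ : ℝ≥0) (X : ℝ≥0 → Ω' → Fin d → ℤ) (N : (Fin d → ℤ) → Ω → ℕ)
    (Y : (Fin d → ℤ) → ℕ → ℝ≥0 → Ω → Fin d → ℤ) (h : ℝ≥0) (m : ℕ) (ω : Ω) :
    qg P' θ X N Y h m (fun _ => 1) ω ≤ 1 := by
  unfold qg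
  calc ∫⁻ ω', 1 * En (θ * hitsg N Y h m (fun k => X (k * h) ω') ω) ∂P' ≤ ∫⁻ _ω', 1 ∂P' :=
        lintegral_mono fun ω' => by
          rw [one_mul]
          exact En_le_one _
    _ = 1 := by simp

theorem sq_le_aux {W Q : ℝ≥0∞} (hW : W ≤ 1) (hQ : Q ≤ 1) : W ^ 2 ≤ Q ^ 2 + 2 * (W - Q) := by
  have h1 : W ≤ Q + (W - Q) := le_add_tsub
  calc W ^ 2 = W * W := pow_two W
    _ ≤ (Q + (W - Q)) * W := by gcongr
    _ = Q * W + (W - Q) * W := add_mul _ _ _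
    _ ≤ Q * (Q + (W - Q)) + (W - Q) * 1 := by gcongr
    _ = Q * Q + Q * (W - Q) + (W - Q) * 1 := by rw [mul_add]
    _ ≤ Q * Q + 1 * (W - Q) + (W - Q) * 1 := by gcongr
    _ = Q ^ 2 + 2 * (W - Q) := by ring

theorem main (h1 : CORE_T) (h2 : GRD_T.{u, v}) (h3 : LIMQ_T.{u, v}) (h4 : KERG_T) (h5 : STEP_T)
    (h6 : NUM_T) : MOM_T.{u, v} := by
  intro d hd κ ρ ν hκ hρ hν
  obtain ⟨C, hC, hk⟩ := h4 d hd κ ρ hκ hρ
  refine ⟨(128 * ν * C.toNNReal + 1)⁻¹, by positivity, ?_⟩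
  intro γ hγ0 hγ Ω _ P _ Ω' _ P' _ X N Y hX hT t ht
  have hγ' : (ν : ℝ) * γ ^ 2 * C * 4 ≤ 1 / 32 := by
    have hD : (0 : ℝ) < 128 * ν * C + 1 := by positivity
    have e1 : (γ : ℝ) ≤ (128 * ν * C + 1)⁻¹ := by
      have h : ((γ : ℝ≥0) : ℝ) ≤ (((128 * ν * C.toNNReal + 1)⁻¹ : ℝ≥0) : ℝ) := by
        exact_mod_cast hγ
      push_cast at h
      rw [Real.coe_toNNReal _ hC.le] at h
      exact h
    have e2 : (128 * (ν : ℝ) * C + 1)⁻¹ ≤ 1 := by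
      apply inv_le_one_of_one_le₀
      have : (0 : ℝ) ≤ 128 * ν * C := by positivity
      linarith
    have e0 : (0 : ℝ) ≤ γ := γ.coe_nonneg
    have e3 : (γ : ℝ) ^ 2 ≤ (128 * ν * C + 1)⁻¹ := by nlinarith
    calc (ν : ℝ) * γ ^ 2 * C * 4 ≤ ν * (128 * ν * C + 1)⁻¹ * C * 4 := by gcongr
      _ ≤ 1 / 32 := by
          have e4 : (ν : ℝ) * (128 * ν * C + 1)⁻¹ * C * 4 = (ν * C * 4) / (128 * ν * C + 1) := by
            field_simp
          rw [e4, div_le_div_iff₀ hD (by norm_num)]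
          linarith
  have ht0 : 0 < t := lt_of_lt_of_le one_pos ht
  have hev : ∀ᶠ n : ℕ in atTop, 1 ≤ n ∧ t ≤ n :=
    (eventually_ge_atTop 1).and (tendsto_natCast_atTop_atTop.eventually_ge_atTop t)
  have hgrid := fun (n : ℕ) (hn : 1 ≤ n ∧ t ≤ n) =>
    grid h1 h2 h5 h6 hd κ ρ ν C hC hk γ hγ' Ω P Ω' P' X N Y hX hT t ht n hn.1 hn.2
  have hmeas := fun (n : ℕ) (Φ : (Fin d → ℤ) → ℝ≥0∞) =>
    (h2 d Ω P Ω' P' κ ρ ν X N Y hX hT (γ * (t / n)) (t / n) n Φ).1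
  obtain ⟨hWm, hWl⟩ := h3 d Ω P Ω' P' κ ρ ν γ X N Y hX hT t ht0 Set.univ
  have eU : {ω' | X t ω' ∈ (Set.univ : Set (Fin d → ℤ))} = Set.univ := by
    ext
    simp
  rw [eU] at hWm hWl
  simp only [Set.indicator_univ] at hWl
  set W : Ω → ℝ≥0∞ := quenchedWeight γ P' X N Y t Set.univ with hW
  set Q : ℕ → Ω → ℝ≥0∞ := fun n => qg P' (γ * (t / n)) X N Y (t / n) n (fun _ => 1) with hQ
  have hδ : Tendsto (fun n : ℕ => ∫⁻ ω, ((W ω - Q n ω) + (Q n ω - W ω)) ∂P) atTop (𝓝 0) := hWl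
  set δ : ℕ → ℝ≥0∞ := fun n => ∫⁻ ω, ((W ω - Q n ω) + (Q n ω - W ω)) ∂P with hδd
  have hQW : ∀ n, ∫⁻ ω, Q n ω ∂P ≤ ∫⁻ ω, W ω ∂P + δ n := by
    intro n
    have := close P (Q n) W hWm
    refine this.trans (le_of_eq ?_)
    congr 1
    exact lintegral_congr fun ω => add_comm _ _
  have hlim1 : Tendsto (fun n => ∫⁻ ω, W ω ∂P + δ n) atTop (𝓝 (∫⁻ ω, W ω ∂P)) := by
    have := (tendsto_const_nhds (x := ∫⁻ ω, W ω ∂P) (f := (atTop : Filter ℕ))).add hδ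
    rwa [add_zero] at this
  refine ⟨?_, ?_, ?_⟩
  · refine ge_of_tendsto hlim1 ?_
    filter_upwards [hev] with n hn
    exact (hgrid n hn).1.trans (hQW n)
  · have hlim2 : Tendsto (fun n => 4 * (∫⁻ ω, W ω ∂P + δ n) ^ 2 + 2 * δ n) atTop
        (𝓝 (4 * (∫⁻ ω, W ω ∂P) ^ 2)) := by
      have e1 := ENNReal.Tendsto.const_mul (a := 4) (ENNReal.Tendsto.pow (n := 2) hlim1)
        (Or.inr (by norm_num))
      have e2 := ENNReal.Tendsto.const_mul (a := 2) hδ (Or.inr (by norm_num))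
      have := e1.add e2
      rwa [mul_zero, add_zero] at this
    refine ge_of_tendsto hlim2 ?_
    filter_upwards [hev] with n hn
    calc ∫⁻ ω, (W ω) ^ 2 ∂P ≤ ∫⁻ ω, ((Q n ω) ^ 2 + 2 * (W ω - Q n ω)) ∂P :=
          lintegral_mono fun ω => sq_le_aux (qw_le_one _ _ _ _ _ _ _ _) (qg_le_one _ _ _ _ _ _ _ _)
      _ = ∫⁻ ω, (Q n ω) ^ 2 ∂P + ∫⁻ ω, 2 * (W ω - Q n ω) ∂P :=
          lintegral_add_left ((hmeas n _).pow_const 2) _
      _ = ∫⁻ ω, (Q n ω) ^ 2 ∂P + 2 * ∫⁻ ω, (W ω - Q n ω) ∂P := by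
          rw [lintegral_const_mul' _ _ (by norm_num)]
      _ ≤ 4 * (∫⁻ ω, Q n ω ∂P) ^ 2 + 2 * δ n := by
          have hle : ∫⁻ ω, (W ω - Q n ω) ∂P ≤ δ n :=
            lintegral_mono fun ω => (le_self_add : W ω - Q n ω ≤ _)
          exact add_le_add (hgrid n hn).2.1 (by gcongr)
      _ ≤ 4 * (∫⁻ ω, W ω ∂P + δ n) ^ 2 + 2 * δ n := by
          gcongr
          exact hQW n
  · intro M hM
    obtain ⟨_, hVl⟩ := h3 d Ω P Ω' P' κ ρ ν γ X N Y hX hT t ht0 (Bc d M t)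
    have eB : {ω' | X t ω' ∈ Bc d M t} = (diffusiveBall X M t)ᶜ := rfl
    rw [eB] at hVl
    set V : Ω → ℝ≥0∞ := quenchedWeight γ P' X N Y t (diffusiveBall X M t)ᶜ with hV
    set R : ℕ → Ω → ℝ≥0∞ := fun n => qg P' (γ * (t / n)) X N Y (t / n) n
      ((Bc d M t).indicator fun _ => 1) with hR
    have hlim3 : Tendsto (fun n => ENNReal.ofReal (6 * κ / M ^ 2) * (∫⁻ ω, W ω ∂P + δ n) +
        ∫⁻ ω, ((V ω - R n ω) + (R n ω - V ω)) ∂P) atTop
        (𝓝 (ENNReal.ofReal (6 * κ / M ^ 2) * ∫⁻ ω, W ω ∂P)) := by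
      have e1 := ENNReal.Tendsto.const_mul (a := ENNReal.ofReal (6 * κ / M ^ 2)) hlim1
        (Or.inr ENNReal.ofReal_ne_top)
      have := e1.add hVl
      rwa [add_zero] at this
    refine ge_of_tendsto hlim3 ?_
    filter_upwards [hev] with n hn
    refine (close P V (R n) (hmeas n _).aemeasurable).trans ?_
    gcongr
    refine ((hgrid n hn).2.2 M hM).trans ?_
    gcongr
    exact hQW n

end Pool.Agent.W494.QT
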